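import Pool.Agent.H82.NET.Stmts

/-! Row CRM of board net. -/

set_option autoImplicit false

namespace Pool.NET

theorem crm_thm : CRM_S := by
  intro h h' u e l e' l' he hee hel hll v hv hv'
  have h1 : nx h u (v, Kd.SE) = (v, Kd.R) := by
    simp only [nx, if_neg hv]
  have h2 : pv h' u (v, Kd.R) = (v, Kd.SE) := by
    simp only [pv]
  rw [h1, h2]
  refine ⟨Or.inl ⟨Or.inr ⟨rfl, ?_⟩, Or.inr ⟨rfl, ?_⟩⟩, Or.inr ⟨Or.inr ⟨rfl, ?_⟩, Or.inr ⟨rfl, ?_⟩⟩⟩
  · show e < l'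
    omega
  · show l' < l
    omega
  · show -e' < -e
    omega
  · show -e < e'
    omega

end Pool.NET
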